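import Pool.Agent.Work.MP_9b0338_al.Main

/-!
# Bounded retreat depth depends on the generating set for finitely presented groups

The definitions below follow the text word by word: word length, infinite paths to infinity, depth
and retreat depth with values in `ℕ∞`.
-/

set_option autoImplicit false

namespace Pool.Agent.Results.MP_9b0338_al.RetreatDepth

open Filter Topology Pool.Agent.MP_9b0338_al

/-- The word length of `g` with respect to `S`: the least length of a list of elements of `S` and
inverses of elements of `S` with product `g`. -/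
noncomputable def wordLength {G : Type} [Group G] (S : Set G) (g : G) : ℕ :=
  sInf {n | ∃ l : List G, l.length = n ∧ (∀ x ∈ l, x ∈ S ∨ x⁻¹ ∈ S) ∧ l.prod = g}

/-- `p` is a path to infinity from `g`: it starts at `g`, each step is a right multiplication by an
element of `S` or an inverse of such an element, and the word length of `p k` tends to infinity. -/
structure PathToInfinity {G : Type} [Group G] (S : Set G) (g : G) (p : ℕ → G) : Prop where
  start : p 0 = g
  step : ∀ k, ∃ x, (x ∈ S ∨ x⁻¹ ∈ S) ∧ p (k + 1) = p k * x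
  infinity : Tendsto (fun k => wordLength S (p k)) atTop atTop

/-- The depth of `g`: the least natural number `k` such that some path to infinity from `g` has all
its vertices at word length at least `|g| - k`; it is `⊤` if there is no such `k`. -/
noncomputable def depth {G : Type} [Group G] (S : Set G) (g : G) : ℕ∞ :=
  ⨅ (k : ℕ) (_ : ∃ p, PathToInfinity S g p ∧ ∀ i, wordLength S g ≤ wordLength S (p i) + k), (k : ℕ∞)

/-- The retreat depth of `(G, S)`: the supremum of the depths of the elements of `G`. -/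
noncomputable def retreatDepth {G : Type} [Group G] (S : Set G) : ℕ∞ := ⨆ g, depth S g

section General

variable {G : Type} [Group G] {S : Set G}

theorem mem_of_or (hS : ∀ x ∈ S, x⁻¹ ∈ S) {x : G} (h : x ∈ S ∨ x⁻¹ ∈ S) : x ∈ S := by
  rcases h with h | h
  · exact h
  · have := hS _ h
    rwa [inv_inv] at this

theorem list_of_ball {n : ℕ} {g : G} (h : g ∈ Ball S n) :
    ∃ l : List G, l.length ≤ n ∧ (∀ x ∈ l, x ∈ S) ∧ l.prod = g := by
  induction n generalizing g with
  | zero =>
    have : g = 1 := h
    exact ⟨[], le_rfl, by simp, by simp [this]⟩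
  | succ n ih =>
    obtain ⟨k, hk, x, hx, rfl⟩ := h
    obtain ⟨l, hl, hlS, rfl⟩ := ih hk
    rcases hx with rfl | hx
    · exact ⟨l, by omega, hlS, by simp⟩
    · refine ⟨l ++ [x], by simp; omega, ?_, by simp⟩
      intro y hy
      rw [List.mem_append, List.mem_singleton] at hy
      rcases hy with hy | rfl
      · exact hlS y hy
      · exact hx

theorem ball_of_list {l : List G} (h : ∀ x ∈ l, x ∈ S) : l.prod ∈ Ball S l.length := by
  induction l with
  | nil => exact rfl
  | cons x l ih =>
    rw [List.prod_cons, List.length_cons, add_comm]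
    exact ball_mul (mem_ball_one (h x (by simp))) (ih fun y hy => h y (by simp [hy]))

theorem wordLength_eq (hS : ∀ x ∈ S, x⁻¹ ∈ S) (hgen : Subgroup.closure S = ⊤) (g : G) :
    wordLength S g = (Cay S).dist 1 g := by
  obtain ⟨l, hl, hlS, hlg⟩ := list_of_ball (mem_ball_dist hS hgen g)
  have hmem : l.length ∈
      {n | ∃ l : List G, l.length = n ∧ (∀ x ∈ l, x ∈ S ∨ x⁻¹ ∈ S) ∧ l.prod = g} :=
    ⟨l, rfl, fun x hx => Or.inl (hlS x hx), hlg⟩
  apply le_antisymm
  · exact (Nat.sInf_le hmem).trans hl
  · obtain ⟨l', hl', hlS', hlg'⟩ := Nat.sInf_mem ⟨_, hmem⟩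
    have h1 := ball_of_list (S := S) (l := l') fun x hx => mem_of_or hS (hlS' x hx)
    rw [hlg'] at h1
    have h2 := dist_le_of_ball h1
    rw [hl'] at h2
    exact h2

theorem depth_le {g : G} {k : ℕ} {p : ℕ → G} (hp : PathToInfinity S g p)
    (h : ∀ i, wordLength S g ≤ wordLength S (p i) + k) : depth S g ≤ k :=
  iInf₂_le k ⟨p, hp, h⟩

theorem exists_path_of_depth_lt_top {g : G} (h : depth S g ≠ ⊤) :
    ∃ k : ℕ, (k : ℕ∞) = depth S g ∧
      ∃ p, PathToInfinity S g p ∧ ∀ i, wordLength S g ≤ wordLength S (p i) + k := by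
  obtain ⟨D, hD⟩ := ENat.ne_top_iff_exists.mp h
  by_contra hcon
  push Not at hcon
  have h1 : ((D + 1 : ℕ) : ℕ∞) ≤ depth S g := by
    refine le_iInf₂ fun k hk => ?_
    obtain ⟨p, hp, hpk⟩ := hk
    have h2 : (D : ℕ∞) ≤ k := by rw [hD]; exact depth_le hp hpk
    have h3 : D ≤ k := by exact_mod_cast h2
    have h4 : k ≠ D := by
      rintro rfl
      obtain ⟨i, hi⟩ := hcon k hD p hp
      exact absurd (hpk i) (not_le.mpr hi)
    exact_mod_cast (show D + 1 ≤ k by omega)
  rw [← hD] at h1
  have h2 : D + 1 ≤ D := by exact_mod_cast h1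
  omega

/-- If the retreat depth is finite, then it is bounded in the sense of finite paths. -/
theorem BR_of_retreatDepth (hS : ∀ x ∈ S, x⁻¹ ∈ S) (hgen : Subgroup.closure S = ⊤)
    (h : retreatDepth S ≠ ⊤) : BR S := by
  obtain ⟨D, hD⟩ := ENat.ne_top_iff_exists.mp h
  refine ⟨D, fun g R => ?_⟩
  have hg : depth S g ≤ D := by rw [hD]; exact le_iSup (fun g => depth S g) g
  have hg' : depth S g ≠ ⊤ := ne_top_of_le_ne_top (ENat.natCast_ne_top D) hg
  obtain ⟨k, hk, p, hp, hpk⟩ := exists_path_of_depth_lt_top hg'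
  have hkD : k ≤ D := by
    rw [← hk] at hg
    exact_mod_cast hg
  obtain ⟨i, hi⟩ := (tendsto_atTop.mp hp.infinity R).exists
  refine ⟨p i, ?_, ?_⟩
  · rw [← wordLength_eq hS hgen]
    exact hi
  · have hwalk : ∀ j : ℕ, ∃ w : (Cay S).Walk g (p j), ∀ v ∈ w.support, ∃ m, v = p m := by
      intro j
      induction j with
      | zero =>
        rw [hp.start]
        exact ⟨SimpleGraph.Walk.nil, fun v hv => ⟨0, by
          rw [SimpleGraph.Walk.support_nil, List.mem_singleton] at hv
          rw [hv, hp.start]⟩⟩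
      | succ j ih =>
        obtain ⟨w, hw⟩ := ih
        obtain ⟨x, hx, hxp⟩ := hp.step j
        have hxS := mem_of_or hS hx
        by_cases hx1 : x = 1
        · rw [hxp, hx1, mul_one]
          exact ⟨w, hw⟩
        · have hadj : (Cay S).Adj (p j) (p (j + 1)) := by
            rw [SimpleGraph.fromRel_adj]
            refine ⟨?_, Or.inl ?_⟩
            · rw [hxp]
              intro h1
              exact hx1 (left_eq_mul.mp h1)
            · rw [hxp]
              simpa using hxS
          refine ⟨w.append (SimpleGraph.Walk.cons hadj SimpleGraph.Walk.nil), fun v hv => ?_⟩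
          rw [SimpleGraph.Walk.mem_support_append_iff] at hv
          rcases hv with hv | hv
          · exact hw v hv
          · rw [SimpleGraph.Walk.support_cons, SimpleGraph.Walk.support_nil, List.mem_cons,
              List.mem_singleton] at hv
            rcases hv with rfl | rfl
            · exact ⟨j, rfl⟩
            · exact ⟨j + 1, rfl⟩
    obtain ⟨w, hw⟩ := hwalk i
    refine ⟨w, fun v hv => ?_⟩
    obtain ⟨m, rfl⟩ := hw v hv
    have h1 := hpk m
    rw [wordLength_eq hS hgen, wordLength_eq hS hgen] at h1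
    omega

/-- Pockets of unbounded depth give unbounded retreat depth. -/
theorem not_BR_of_pockets (hS : ∀ x ∈ S, x⁻¹ ∈ S)
    (hpocket : ∀ D : ℕ, ∃ P : Set G, P.Finite ∧ ∃ x ∈ P, ∀ v ∈ P, ∀ s ∈ S, v * s ∉ P →
      (Cay S).dist 1 v + D < (Cay S).dist 1 x) : ¬ BR S := by
  rintro ⟨D, hD⟩
  obtain ⟨P, hPfin, x, hx, hP⟩ := hpocket D
  obtain ⟨y, _, hmax⟩ := Set.exists_max_image P (fun v => (Cay S).dist 1 v) hPfin ⟨x, hx⟩
  obtain ⟨h, hhR, p, hp⟩ := hD x ((Cay S).dist 1 y + 1)
  have hhP : h ∉ P := fun h1 => by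
    have := hmax h h1
    omega
  obtain ⟨d, hd, hd1, hd2⟩ := p.exists_boundary_dart P hx hhP
  have h1 := hp d.fst (p.dart_fst_mem_support_of_mem_darts hd)
  have hadj := d.adj
  rw [SimpleGraph.fromRel_adj] at hadj
  have hstep : d.fst⁻¹ * d.snd ∈ S := by
    rcases hadj.2 with h | h
    · exact h
    · have := hS _ h
      rw [mul_inv_rev, inv_inv] at this
      exact this
  have h2 := hP d.fst hd1 _ hstep (by rwa [mul_inv_cancel_left])
  omega

theorem ball_finite (hfin : S.Finite) (n : ℕ) : (Ball S n).Finite := by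
  induction n with
  | zero => exact Set.finite_singleton 1
  | succ n ih =>
    refine ((ih.prod (hfin.insert 1)).image fun p : G × G => p.1 * p.2).subset ?_
    rintro g ⟨h, hh, x, hx, rfl⟩
    exact ⟨(h, x), ⟨hh, hx⟩, rfl⟩

/-- An injective sequence tends to infinity. -/
theorem tendsto_of_injective (hS : ∀ x ∈ S, x⁻¹ ∈ S) (hgen : Subgroup.closure S = ⊤)
    (hfin : S.Finite) {p : ℕ → G} (hp : Function.Injective p) :
    Tendsto (fun k => wordLength S (p k)) atTop atTop := by
  rw [tendsto_atTop]
  intro b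
  have h1 : {k | p k ∈ Ball S b}.Finite := (ball_finite hfin b).preimage hp.injOn
  rw [← Nat.cofinite_eq_atTop]
  filter_upwards [h1.compl_mem_cofinite] with k hk
  by_contra h2
  push Not at h2
  apply hk
  rw [wordLength_eq hS hgen] at h2
  exact ball_mono h2.le (mem_ball_dist hS hgen _)

/-- The retreat depth of `G × G` for `S ∨ S` is zero as soon as `S` contains an element `t` of
infinite order. -/
theorem retreatDepth_vee (hS : ∀ x ∈ S, x⁻¹ ∈ S) (hgen : Subgroup.closure S = ⊤)
    (hfin : S.Finite) {t : G} (ht : t ∈ S) (hinj : Function.Injective fun k : ℕ => t ^ k) :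
    retreatDepth (vee S) = 0 := by
  have hle : ∀ (g h : G) (n : ℕ), wordLength (vee S) (g, h) ≤ n ↔
      wordLength S g ≤ n ∧ wordLength S h ≤ n := by
    intro g h n
    rw [wordLength_eq (vee_symm hS) (vee_gen hgen), wordLength_eq hS hgen, wordLength_eq hS hgen,
      dist_le_iff (vee_symm hS) (vee_gen hgen), ball_vee, dist_le_iff hS hgen,
      dist_le_iff hS hgen]
  have hg1 : ∀ g h : G, wordLength S g ≤ wordLength (vee S) (g, h) :=
    fun g h => ((hle g h _).1 le_rfl).1
  have hg2 : ∀ g h : G, wordLength S h ≤ wordLength (vee S) (g, h) :=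
    fun g h => ((hle g h _).1 le_rfl).2
  have hinj' : ∀ h : G, Function.Injective fun k : ℕ => h * t ^ k :=
    fun h a b hab => hinj (mul_left_cancel hab)
  rw [retreatDepth, ← nonpos_iff_eq_zero]
  refine iSup_le ?_
  rintro ⟨g, h⟩
  rcases le_total (wordLength S h) (wordLength S g) with hgh | hgh
  · refine depth_le (k := 0) (p := fun k => (g, h * t ^ k)) ⟨by simp, fun k => ?_, ?_⟩ fun i => ?_
    · refine ⟨(1, t), Or.inl ⟨Or.inl rfl, Or.inr ht⟩, ?_⟩
      simp [pow_succ, mul_assoc]
    · exact tendsto_atTop_mono (fun k => hg2 g _) (tendsto_of_injective hS hgen hfin (hinj' h))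
    · exact ((hle g h _).2 ⟨le_rfl, hgh⟩).trans (hg1 g _)
  · refine depth_le (k := 0) (p := fun k => (g * t ^ k, h)) ⟨by simp, fun k => ?_, ?_⟩ fun i => ?_
    · refine ⟨(t, 1), Or.inl ⟨Or.inr ht, Or.inl rfl⟩, ?_⟩
      simp [pow_succ, mul_assoc]
    · exact tendsto_atTop_mono (fun k => hg1 _ h) (tendsto_of_injective hS hgen hfin (hinj' g))
    · exact ((hle g h _).2 ⟨hgh, le_rfl⟩).trans (hg2 _ h)

end General

theorem gt_injective : Function.Injective fun k : ℕ => gt ^ k := by
  obtain ⟨ρ, _, ht, _⟩ := exists_hom (frame_perm (threeDot_a 0))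
  intro a b hab
  have h1 : (shT ^ (a : ℤ)) (0, 0, 0) = (shT ^ (b : ℤ)) (0, 0, 0) := by
    have h2 := congrArg ρ hab
    simp only [map_pow, ht] at h2
    rw [zpow_natCast, zpow_natCast, h2]
  rw [shT_zpow, shT_zpow] at h1
  have h2 := (Prod.mk.inj h1).1
  simpa using h2

/-- Bounded retreat depth depends on the generating set for finitely presented groups. For the
finitely presented group `Gam = ⟨a, t, s | a², [s, t], s a s⁻¹ = a (t a t⁻¹)⟩` there is a finite
generating set with infinite retreat depth, and the finitely presented group `Gam × Gam` has finite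
generating sets `S` and `S'` with retreat depths `0` and `∞`. -/
theorem result :
    (Group.IsFinitelyPresented Gam ∧
      ∃ T : Set Gam, T.Finite ∧ Subgroup.closure T = ⊤ ∧ retreatDepth T = ⊤) ∧
    (Group.IsFinitelyPresented (Gam × Gam) ∧
      ∃ S S' : Set (Gam × Gam), S.Finite ∧ S'.Finite ∧
        Subgroup.closure S = ⊤ ∧ Subgroup.closure S' = ⊤ ∧
        retreatDepth S = 0 ∧ retreatDepth S' = ⊤) := by
  have hS := gens_symm frame_gam
  have hfin := gens_finite ga gt gs
  have hfp : Group.IsFinitelyPresented Gam := by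
    have : Finite rels := rels_finite
    infer_instance
  have ht : gt ∈ gens ga gt gs := ⟨1, 0, by simp [Unit3], Or.inl (by simp [tau])⟩
  refine ⟨⟨hfp, gens ga gt gs, hfin, gens_gen, ?_⟩, fp_square, vee (gens ga gt gs),
    perp (gens ga gt gs), vee_finite hfin, perp_finite hfin, vee_gen gens_gen, perp_gen gens_gen,
    retreatDepth_vee hS gens_gen hfin ht gt_injective, ?_⟩
  · by_contra h
    exact not_BR_of_pockets hS pockets (BR_of_retreatDepth hS gens_gen h)
  · by_contra h
    exact not_BR_perp hS gens_gen pockets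
      (BR_of_retreatDepth (perp_symm hS) (perp_gen gens_gen) h)

end Pool.Agent.Results.MP_9b0338_al.RetreatDepth
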